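import Mathlib

/-!
Boolean functions on finite abelian groups which are combinations of few characters: subgroups on
whose coset such a function is constant can be taken from a small family.
-/

set_option autoImplicit false
set_option linter.unusedSectionVars false

namespace Pool.Agent.H711.SC

open Finset

variable {G : Type} [AddCommGroup G] [Fintype G]

/-- `f` is a complex linear combination of the characters in `S`. -/
def Comb (S : Finset (AddChar G ℂ)) (f : G → Bool) : Prop :=
  ∃ c : AddChar G ℂ → ℂ, ∀ x, (if f x then (1 : ℂ) else 0) = ∑ χ ∈ S, c χ * χ x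

/-- The common kernel of a set of characters. -/
def ker (D : Set (AddChar G ℂ)) : AddSubgroup G where
  carrier := {x | ∀ χ ∈ D, χ x = 1}
  zero_mem' := fun χ _ => χ.map_zero_eq_one
  add_mem' := fun {a b} ha hb χ hχ => by
    rw [AddChar.map_add_eq_mul, ha χ hχ, hb χ hχ, one_mul]
  neg_mem' := fun {a} ha χ hχ => by
    rw [AddChar.map_neg_eq_inv, ha χ hχ, inv_one]

theorem mem_ker {D : Set (AddChar G ℂ)} {x : G} : x ∈ ker D ↔ ∀ χ ∈ D, χ x = 1 := Iff.rfl

theorem char_ne_zero (χ : AddChar G ℂ) (x : G) : χ x ≠ 0 := (χ.val_isUnit x).ne_zero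

/-- orthogonality on a subgroup -/
theorem sum_sub (V : AddSubgroup G) [Fintype V] (χ ψ : AddChar G ℂ)
    [Decidable (∀ w ∈ V, χ w = ψ w)] :
    ∑ w : V, χ w * ψ (-(w : G)) = if ∀ w ∈ V, χ w = ψ w then (Fintype.card V : ℂ) else 0 := by
  classical
  have h := AddChar.sum_eq_ite ((χ / ψ).compAddMonoidHom V.subtype)
  have h1 : ∑ w : V, χ w * ψ (-(w : G)) =
      ∑ w : V, ((χ / ψ).compAddMonoidHom V.subtype) w := by
    refine Finset.sum_congr rfl fun w _ => ?_
    rw [AddChar.compAddMonoidHom_apply, AddChar.div_apply]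
    rfl
  rw [h1, h]
  have h2 : (χ / ψ).compAddMonoidHom V.subtype = 0 ↔ ∀ w ∈ V, χ w = ψ w := by
    rw [AddChar.eq_zero_iff]
    constructor
    · intro h w hw
      have := h ⟨w, hw⟩
      rw [AddChar.compAddMonoidHom_apply, AddChar.div_apply, AddChar.map_neg_eq_inv] at this
      have h0 := char_ne_zero ψ w
      have : χ w * (ψ w)⁻¹ = 1 := this
      field_simp at this
      exact this
    · intro h w
      rw [AddChar.compAddMonoidHom_apply, AddChar.div_apply, AddChar.map_neg_eq_inv]
      have := h w w.2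
      show χ w * (ψ w)⁻¹ = 1
      rw [this]
      exact mul_inv_cancel₀ (char_ne_zero ψ w)
  by_cases hc : ∀ w ∈ V, χ w = ψ w
  · rw [if_pos hc, if_pos (h2.2 hc)]
  · rw [if_neg hc, if_neg (fun h => hc (h2.1 h))]

/-- If `f` is constant on `x + V`, then on the larger set `x + W`, where `W` is the common kernel of
those quotients of two characters of `S ∪ {1}` which are trivial on `V`. -/
theorem const_ext (S : Finset (AddChar G ℂ)) (f : G → Bool) (hf : Comb S f) (V : AddSubgroup G)
    (x : G) (b : Bool) (hV : ∀ w ∈ V, f (x + w) = b) (v : G)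
    (hv : ∀ χ ∈ insert 0 S, ∀ ψ ∈ insert 0 S, (∀ w ∈ V, χ w = ψ w) → χ v = ψ v) :
    f (x + v) = b := by
  classical
  obtain ⟨c, hc⟩ := hf
  set β : ℂ := if b then 1 else 0 with hβ
  have hcard : (Fintype.card V : ℂ) ≠ 0 := by
    have : 0 < Fintype.card V := Fintype.card_pos
    exact_mod_cast this.ne'
  -- the coefficients of a class
  have hclass : ∀ ψ : AddChar G ℂ, ∑ χ ∈ S with (∀ w ∈ V, χ w = ψ w), c χ * χ x =
      if ∀ w ∈ V, (0 : AddChar G ℂ) w = ψ w then β else 0 := by
    intro ψ
    have h1 : ∑ w : V, (if f (x + w) then (1 : ℂ) else 0) * ψ (-(w : G)) =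
        ∑ w : V, β * ((0 : AddChar G ℂ) w * ψ (-(w : G))) := by
      refine Finset.sum_congr rfl fun w _ => ?_
      rw [hV w w.2, AddChar.zero_apply, one_mul]
    rw [← Finset.mul_sum, sum_sub] at h1
    have h2 : ∑ w : V, (if f (x + w) then (1 : ℂ) else 0) * ψ (-(w : G)) =
        ∑ χ ∈ S, c χ * χ x * (if ∀ w ∈ V, χ w = ψ w then (Fintype.card V : ℂ) else 0) := by
      have h3 : ∀ w : V, (if f (x + w) then (1 : ℂ) else 0) * ψ (-(w : G)) =
          ∑ χ ∈ S, c χ * χ x * (χ w * ψ (-(w : G))) := by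
        intro w
        rw [hc, Finset.sum_mul]
        refine Finset.sum_congr rfl fun χ _ => ?_
        rw [AddChar.map_add_eq_mul]
        ring
      rw [Finset.sum_congr rfl fun w _ => h3 w, Finset.sum_comm]
      refine Finset.sum_congr rfl fun χ _ => ?_
      rw [← Finset.mul_sum, sum_sub]
    rw [h2] at h1
    have h4 : ∑ χ ∈ S, c χ * χ x * (if ∀ w ∈ V, χ w = ψ w then (Fintype.card V : ℂ) else 0) =
        (Fintype.card V : ℂ) * ∑ χ ∈ S with (∀ w ∈ V, χ w = ψ w), c χ * χ x := by
      rw [Finset.sum_filter, Finset.mul_sum]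
      refine Finset.sum_congr rfl fun χ _ => ?_
      split_ifs <;> ring
    rw [h4] at h1
    have h5 : (Fintype.card V : ℂ) * ∑ χ ∈ S with (∀ w ∈ V, χ w = ψ w), c χ * χ x =
        (Fintype.card V : ℂ) * (if ∀ w ∈ V, (0 : AddChar G ℂ) w = ψ w then β else 0) := by
      rw [h1]
      split_ifs <;> ring
    exact mul_left_cancel₀ hcard h5
  -- the value at a point of the larger set
  have hval : ∀ u : G, (∀ χ ∈ insert 0 S, ∀ ψ ∈ insert 0 S, (∀ w ∈ V, χ w = ψ w) → χ u = ψ u) →
      (if f (x + u) then (1 : ℂ) else 0) =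
        if ∃ χ ∈ S, ∀ w ∈ V, (0 : AddChar G ℂ) w = χ w then β else 0 := by
    intro u hu
    set κ : AddChar G ℂ → (V → ℂ) := fun χ w => χ w with hκ
    have hκe : ∀ χ ψ : AddChar G ℂ, κ χ = κ ψ ↔ ∀ w ∈ V, χ w = ψ w := by
      intro χ ψ
      constructor
      · intro h w hw
        exact congrFun h ⟨w, hw⟩
      · intro h
        funext w
        exact h w w.2
    rw [hc]
    have h1 : ∑ χ ∈ S, c χ * χ (x + u) =
        ∑ φ ∈ S.image κ, ∑ χ ∈ S with κ χ = φ, c χ * χ (x + u) :=
      (Finset.sum_fiberwise_of_maps_to (fun χ hχ => Finset.mem_image_of_mem κ hχ) _).symm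
    rw [h1]
    have h2 : ∀ φ ∈ S.image κ, ∑ χ ∈ S with κ χ = φ, c χ * χ (x + u) =
        if κ 0 = φ then β else 0 := by
      intro φ hφ
      obtain ⟨ψ, hψ, rfl⟩ := Finset.mem_image.mp hφ
      have h3 : ∑ χ ∈ S with κ χ = κ ψ, c χ * χ (x + u) =
          (∑ χ ∈ S with (∀ w ∈ V, χ w = ψ w), c χ * χ x) * ψ u := by
        rw [Finset.sum_mul]
        refine Finset.sum_congr ?_ fun χ hχ => ?_
        · ext χ
          simp only [Finset.mem_filter, hκe]
        · simp only [Finset.mem_filter] at hχ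
          rw [AddChar.map_add_eq_mul, hu χ (Finset.mem_insert_of_mem hχ.1) ψ
            (Finset.mem_insert_of_mem hψ) hχ.2]
          ring
      rw [h3, hclass ψ]
      by_cases h0 : ∀ w ∈ V, (0 : AddChar G ℂ) w = ψ w
      · rw [if_pos h0, if_pos ((hκe 0 ψ).2 h0)]
        have := hu 0 (Finset.mem_insert_self _ _) ψ (Finset.mem_insert_of_mem hψ) h0
        rw [← this, AddChar.zero_apply, mul_one]
      · rw [if_neg h0, if_neg (fun h => h0 ((hκe 0 ψ).1 h)), zero_mul]
    rw [Finset.sum_congr rfl h2, Finset.sum_ite_eq]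
    by_cases h0 : ∃ χ ∈ S, ∀ w ∈ V, (0 : AddChar G ℂ) w = χ w
    · rw [if_pos h0, if_pos]
      obtain ⟨χ, hχ, h⟩ := h0
      exact Finset.mem_image.mpr ⟨χ, hχ, ((hκe 0 χ).2 h).symm⟩
    · rw [if_neg h0, if_neg]
      intro h
      obtain ⟨χ, hχ, he⟩ := Finset.mem_image.mp h
      exact h0 ⟨χ, hχ, (hκe 0 χ).1 he.symm⟩
  have h1 := hval v hv
  have h2 := hval 0 (fun χ _ ψ _ _ => by rw [AddChar.map_zero_eq_one, AddChar.map_zero_eq_one])
  rw [← h2, hV 0 V.zero_mem] at h1
  revert h1
  cases f (x + v) <;> cases b <;> simp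

/-- A subset of a set of characters, trivial on `V`, with the same common kernel, which has at most
`log₂ [G : V]` elements. -/
theorem small_gen (V : AddSubgroup G) (D : Finset (AddChar G ℂ)) (hD : ∀ χ ∈ D, ∀ w ∈ V, χ w = 1) :
    ∃ T ⊆ D, 2 ^ T.card ≤ V.index ∧ ker (T : Set (AddChar G ℂ)) = ker (D : Set (AddChar G ℂ)) := by
  classical
  have main : ∃ T ⊆ D, 2 ^ T.card ≤ (ker (T : Set (AddChar G ℂ))).index ∧
      ker (T : Set (AddChar G ℂ)) = ker (D : Set (AddChar G ℂ)) := by
    induction D using Finset.induction_on with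
    | empty =>
      refine ⟨∅, subset_rfl, ?_, rfl⟩
      rw [card_empty, pow_zero]
      exact Nat.one_le_iff_ne_zero.mpr AddSubgroup.index_ne_zero_of_finite
    | insert χ D _ ih =>
      obtain ⟨T, hT, hc, hk⟩ := ih (fun ψ hψ => hD ψ (Finset.mem_insert_of_mem hψ))
      have hins : ∀ E : Finset (AddChar G ℂ), ker ((insert χ E : Finset (AddChar G ℂ)) :
          Set (AddChar G ℂ)) = ker {χ} ⊓ ker (E : Set (AddChar G ℂ)) := by
        intro E
        ext x
        simp [mem_ker]
      by_cases hle : ker (T : Set (AddChar G ℂ)) ≤ ker {χ}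
      · refine ⟨T, hT.trans (Finset.subset_insert _ _), hc, ?_⟩
        rw [hins, ← hk, inf_eq_right.mpr hle]
      · refine ⟨insert χ T, Finset.insert_subset_insert _ hT, ?_, ?_⟩
        · have hlt : ker ((insert χ T : Finset (AddChar G ℂ)) : Set (AddChar G ℂ)) <
              ker (T : Set (AddChar G ℂ)) := by
            rw [hins]
            refine lt_of_le_of_ne inf_le_right fun h => hle ?_
            rw [← h]
            exact inf_le_left
          have h1 := AddSubgroup.relIndex_mul_index hlt.le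
          have h2 : 2 ≤ (ker ((insert χ T : Finset (AddChar G ℂ)) : Set (AddChar G ℂ))).relIndex
              (ker (T : Set (AddChar G ℂ))) := by
            have h3 : (ker ((insert χ T : Finset (AddChar G ℂ)) : Set (AddChar G ℂ))).relIndex
              (ker (T : Set (AddChar G ℂ))) ≠ 1 := by
              intro h
              rw [AddSubgroup.relIndex_eq_one] at h
              exact absurd h (not_le_of_gt hlt)
            have h4 : (ker ((insert χ T : Finset (AddChar G ℂ)) : Set (AddChar G ℂ))).relIndex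
              (ker (T : Set (AddChar G ℂ))) ≠ 0 := by
              intro h
              rw [h, zero_mul] at h1
              exact AddSubgroup.index_ne_zero_of_finite h1.symm
            omega
          rw [← h1]
          calc 2 ^ (insert χ T).card ≤ 2 ^ (T.card + 1) :=
                Nat.pow_le_pow_right (by norm_num) (Finset.card_insert_le _ _)
            _ = 2 * 2 ^ T.card := by rw [pow_succ']
            _ ≤ _ := Nat.mul_le_mul h2 hc
        · rw [hins, hins, hk]
  obtain ⟨T, hT, hc, hk⟩ := main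
  refine ⟨T, hT, hc.trans ?_, hk⟩
  have hVle : V ≤ ker (T : Set (AddChar G ℂ)) := fun w hw χ hχ => hD χ (hT hχ) w hw
  exact Nat.le_of_dvd (Nat.pos_of_ne_zero AddSubgroup.index_ne_zero_of_finite)
    (AddSubgroup.index_dvd_of_le hVle)

end Pool.Agent.H711.SC
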