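import Pool.Graph.R_seed8.R533.VC.NW

/-!
Few rectangles that cover the ones, and small rank, give a protocol (Lovász).
-/

set_option autoImplicit false

namespace Pool.Agent.H711.SC

open Finset Module Pool.Agent.H630R2.LR Pool.Agent.R533.VC

theorem cover_level {X Y : Type*} [Fintype X] [Fintype Y] (F : X → Y → Bool) {I : Type*}
    [Fintype I] (P : I → Set X) (Q : I → Set Y) (h1 : ∀ i, ∀ x ∈ P i, ∀ y ∈ Q i, F x y = true)
    (h2 : ∀ x y, F x y = true → ∃ i, x ∈ P i ∧ y ∈ Q i) (w : ℕ)
    (hw : Fintype.card I + 1 ≤ 2 ^ w) :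
    ∀ (k r : ℕ), Nat.clog 2 r ≤ k → ∀ (A : Finset X) (B : Finset Y), rk F A B ≤ r →
      POn F A B (2 * w * k + 2) := by
  classical
  intro k
  induction k with
  | zero =>
    intro r hr A B hrk
    have hr1 : r ≤ 1 := by
      by_contra h
      have := Nat.clog_pos (b := 2) (n := r) (by norm_num) (by omega)
      omega
    refine Proto.mono (proto_rank (fun (x : A) (y : B) => F x y)) ?_
    have : (comm (fun (x : A) (y : B) => F x y)).rank ≤ r := hrk
    omega
  | succ k ih =>
    intro r hr A B hrk
    have hr' : Nat.clog 2 ((r + 1) / 2) ≤ k := by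
      rcases Nat.lt_or_ge 1 r with h1 | h1
      · have h2 := Nat.clog_of_two_le (b := 2) (n := r) (by norm_num) h1
        have h3 : (r + 2 - 1) / 2 = (r + 1) / 2 := by congr 1
        rw [h3] at h2
        omega
      · have : (r + 1) / 2 ≤ 1 := by omega
        have h0 : Nat.clog 2 ((r + 1) / 2) = 0 := Nat.clog_of_right_le_one this 2
        omega
    have hX : ∀ i : I, ∃ Φ : A → B → Bool, Proto Φ (2 * w * k + 2) ∧
        (rk F (A.filter fun x => x ∈ P i) B ≤ (r + 1) / 2 → ∀ (x : A) (y : B), x.1 ∈ P i →
          Φ x y = F x y) := by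
      intro i
      by_cases h : rk F (A.filter fun x => x ∈ P i) B ≤ (r + 1) / 2
      · obtain ⟨Φ, hΦ, hΦF⟩ := (ih _ hr' _ _ h).extend (A := A) (B := B)
        exact ⟨Φ, hΦ, fun _ x y hx => hΦF x y (mem_filter.mpr ⟨x.2, hx⟩) y.2⟩
      · exact ⟨fun _ _ => true, (Proto.const _ true fun _ _ => rfl).mono (Nat.zero_le _),
          fun h' => absurd h' h⟩
    have hY : ∀ i : I, ∃ Φ : A → B → Bool, Proto Φ (2 * w * k + 2) ∧
        (rk F A (B.filter fun y => y ∈ Q i) ≤ (r + 1) / 2 → ∀ (x : A) (y : B), y.1 ∈ Q i →
          Φ x y = F x y) := by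
      intro i
      by_cases h : rk F A (B.filter fun y => y ∈ Q i) ≤ (r + 1) / 2
      · obtain ⟨Φ, hΦ, hΦF⟩ := (ih _ hr' _ _ h).extend (A := A) (B := B)
        exact ⟨Φ, hΦ, fun _ x y hy => hΦF x y x.2 (mem_filter.mpr ⟨y.2, hy⟩)⟩
      · exact ⟨fun _ _ => true, (Proto.const _ true fun _ _ => rfl).mono (Nat.zero_le _),
          fun h' => absurd h' h⟩
    choose ΦX hΦX hΦXF using hX
    choose ΦY hΦY hΦYF using hY
    set g : A → Option I := fun x =>
      if h : ∃ i, x.1 ∈ P i ∧ rk F (A.filter fun x => x ∈ P i) B ≤ (r + 1) / 2 then some h.choose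
      else none with hg
    set g' : B → Option I := fun y =>
      if h : ∃ i, y.1 ∈ Q i ∧ rk F A (B.filter fun y => y ∈ Q i) ≤ (r + 1) / 2 then some h.choose
      else none with hg'
    have e : 2 * w * (k + 1) + 2 = (2 * w * k + 2 + w) + w := by ring
    show Proto _ _
    rw [e]
    refine Proto.sendX (Q := Option I) _ g w (by rw [Fintype.card_option]; exact hw)
      (fun s x y => match s with
        | some i => ΦX i x y
        | none => match g' y with
          | some j => ΦY j x y
          | none => false) _ (fun s => ?_) (fun x y => ?_)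
    · rcases s with _ | i
      · refine Proto.sendY (Q := Option I) _ g' w (by rw [Fintype.card_option]; exact hw)
          (fun t x y => match t with
            | some j => ΦY j x y
            | none => false) _ (fun t => ?_) (fun x y => rfl)
        rcases t with _ | j
        · exact (Proto.const _ false fun _ _ => rfl).mono (Nat.zero_le _)
        · exact hΦY j
      · exact (hΦX i).mono (Nat.le_add_right _ _)
    · by_cases hx : ∃ i, x.1 ∈ P i ∧ rk F (A.filter fun x => x ∈ P i) B ≤ (r + 1) / 2
      · have hgx : g x = some hx.choose := by rw [hg]; simp only [dif_pos hx]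
        rw [hgx]
        exact (hΦXF _ hx.choose_spec.2 x y hx.choose_spec.1).symm
      · have hgx : g x = none := by rw [hg]; simp only [dif_neg hx]
        rw [hgx]
        by_cases hy : ∃ i, y.1 ∈ Q i ∧ rk F A (B.filter fun y => y ∈ Q i) ≤ (r + 1) / 2
        · have hgy : g' y = some hy.choose := by rw [hg']; simp only [dif_pos hy]
          simp only [hgy]
          exact (hΦYF _ hy.choose_spec.2 x y hy.choose_spec.1).symm
        · have hgy : g' y = none := by rw [hg']; simp only [dif_neg hy]
          simp only [hgy]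
          cases hF : F x.1 y.1
          · rfl
          · exfalso
            obtain ⟨i, hxi, hyi⟩ := h2 x.1 y.1 hF
            have hs := rk_split F (A := A) (B := B) (A' := A.filter fun x => x ∈ P i)
              (B' := B.filter fun y => y ∈ Q i) (filter_subset _ _) (filter_subset _ _) true (by
                intro a ha b hb
                exact h1 i a (mem_filter.mp ha).2 b (mem_filter.mp hb).2)
            have ha : ¬ rk F (A.filter fun x => x ∈ P i) B ≤ (r + 1) / 2 := fun h =>
              hx ⟨i, hxi, h⟩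
            have hb : ¬ rk F A (B.filter fun y => y ∈ Q i) ≤ (r + 1) / 2 := fun h =>
              hy ⟨i, hyi, h⟩
            omega

/-- **Lovász.** A cover of the ones by few rectangles and a small rank give a protocol. -/
theorem cover_proto {X Y : Type*} [Fintype X] [Fintype Y] (F : X → Y → Bool) {I : Type*}
    [Fintype I] (P : I → Set X) (Q : I → Set Y) (h1 : ∀ i, ∀ x ∈ P i, ∀ y ∈ Q i, F x y = true)
    (h2 : ∀ x y, F x y = true → ∃ i, x ∈ P i ∧ y ∈ Q i) (w : ℕ)
    (hw : Fintype.card I + 1 ≤ 2 ^ w) : Proto F (2 * w * Nat.clog 2 (comm F).rank + 2) := by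
  have h := cover_level F P Q h1 h2 w hw (Nat.clog 2 (comm F).rank) (comm F).rank le_rfl univ univ
    (rk_le F univ univ)
  exact Proto.comap h (fun x : X => (⟨x, mem_univ x⟩ : (univ : Finset X)))
    (fun y : Y => (⟨y, mem_univ y⟩ : (univ : Finset Y)))

end Pool.Agent.H711.SC
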