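import Pool.Agent.H711.SC.Main
import Pool.Graph.R_seed8.H630R2.LR.Bounds

/-!
Fourier sparsity over the field with two elements, and the final estimates.
-/

set_option autoImplicit false
set_option linter.unusedSectionVars false

namespace Pool.Agent.H711.SC

open Finset Module Pool.Agent.H630R2.LR Pool.Agent.R533.VC

/-- The product `γ · x` over the field with two elements. -/
def dot {n : ℕ} (γ x : Fin n → ZMod 2) : ZMod 2 := ∑ i, γ i * x i

/-- The Fourier sparsity: the number of the nonzero Fourier coefficients of the `0/1`-valued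
function `f`. -/
noncomputable def sparsity {n : ℕ} (f : (Fin n → ZMod 2) → Bool) : ℕ :=
  (univ.filter fun γ : Fin n → ZMod 2 =>
    ∑ x, (if f x then (1 : ℤ) else 0) * (if dot γ x = 0 then 1 else -1) ≠ 0).card

theorem sgn_add (a b : ZMod 2) : (if a + b = 0 then (1 : ℂ) else -1) =
    (if a = 0 then 1 else -1) * (if b = 0 then 1 else -1) := by
  have h : ∀ a b : ZMod 2, (a + b = 0 ↔ (a = 0 ↔ b = 0)) := by decide
  by_cases ha : a = 0 <;> by_cases hb : b = 0 <;> simp [h a b, ha, hb]

theorem dot_add {n : ℕ} (γ x y : Fin n → ZMod 2) : dot γ (x + y) = dot γ x + dot γ y := by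
  unfold dot
  rw [← Finset.sum_add_distrib]
  exact Finset.sum_congr rfl fun i _ => mul_add _ _ _

theorem dot_comm {n : ℕ} (γ x : Fin n → ZMod 2) : dot γ x = dot x γ :=
  Finset.sum_congr rfl fun _ _ => mul_comm _ _

/-- The character `x ↦ (-1) ^ (γ · x)`. -/
def chi {n : ℕ} (γ : Fin n → ZMod 2) : AddChar (Fin n → ZMod 2) ℂ where
  toFun x := if dot γ x = 0 then 1 else -1
  map_zero_eq_one' := by
    have : dot γ 0 = 0 := by simp [dot]
    simp [this]
  map_add_eq_mul' x y := by rw [dot_add, sgn_add]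

theorem chi_apply {n : ℕ} (γ x : Fin n → ZMod 2) : chi γ x = if dot γ x = 0 then 1 else -1 := rfl

theorem sum_chi {n : ℕ} (z : Fin n → ZMod 2) :
    ∑ γ : Fin n → ZMod 2, chi γ z = if z = 0 then (2 : ℂ) ^ n else 0 := by
  have h1 : ∀ γ : Fin n → ZMod 2, chi γ z = chi z γ := fun γ => by
    rw [chi_apply, chi_apply, dot_comm]
  rw [Finset.sum_congr rfl fun γ _ => h1 γ]
  have h2 := AddChar.sum_eq_ite (chi z)
  rw [h2]
  have h3 : chi z = 0 ↔ z = 0 := by
    constructor
    · intro h
      funext i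
      by_contra hi
      have h4 := (AddChar.eq_zero_iff.mp h) (Pi.single i 1)
      rw [chi_apply] at h4
      have h5 : dot z (Pi.single i 1) = z i := by
        unfold dot
        rw [Finset.sum_eq_single i]
        · simp
        · intro j _ hj
          simp [Pi.single_eq_of_ne hj]
        · intro h
          exact absurd (Finset.mem_univ i) h
      have hi' : z i ≠ 0 := hi
      rw [h5, if_neg hi'] at h4
      norm_num at h4
    · rintro rfl
      rw [AddChar.eq_zero_iff]
      intro x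
      rw [chi_apply]
      simp [dot]
  have h6 : (Fintype.card (Fin n → ZMod 2) : ℂ) = 2 ^ n := by
    rw [Fintype.card_fun, ZMod.card, Fintype.card_fin]
    push_cast
    rfl
  by_cases hz : z = 0
  · rw [if_pos (h3.2 hz), if_pos hz, h6]
  · rw [if_neg (fun h => hz (h3.1 h)), if_neg hz]

/-- A function of Fourier sparsity `s` is a combination of `s` characters. -/
theorem comb_sparsity {n : ℕ} (f : (Fin n → ZMod 2) → Bool) :
    ∃ S : Finset (AddChar (Fin n → ZMod 2) ℂ), S.card ≤ sparsity f ∧ Comb S f := by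
  classical
  refine ⟨(univ.filter fun γ : Fin n → ZMod 2 =>
    ∑ x, (if f x then (1 : ℤ) else 0) * (if dot γ x = 0 then 1 else -1) ≠ 0).image chi,
    Finset.card_image_le, ?_⟩
  rw [comb_iff]
  set a : (Fin n → ZMod 2) → ℤ := fun γ =>
    ∑ x, (if f x then (1 : ℤ) else 0) * (if dot γ x = 0 then 1 else -1) with ha
  have h2n : (2 : ℂ) ^ n ≠ 0 := pow_ne_zero _ two_ne_zero
  have haC : ∀ γ, (a γ : ℂ) = ∑ x, ind f x * chi γ x := by
    intro γ
    rw [ha, Int.cast_sum]
    refine Finset.sum_congr rfl fun x _ => ?_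
    rw [chi_apply]
    unfold ind
    push_cast
    split_ifs <;> simp
  have h1 : ind f = ∑ γ : Fin n → ZMod 2, (((2 : ℂ) ^ n)⁻¹ * a γ) • fun x => chi γ x := by
    funext x
    rw [Finset.sum_apply]
    have h3 : ∀ γ : Fin n → ZMod 2, ((((2 : ℂ) ^ n)⁻¹ * a γ) • fun x => chi γ x) x =
        ∑ y, ((2 : ℂ) ^ n)⁻¹ * ind f y * chi γ (y + x) := by
      intro γ
      show (((2 : ℂ) ^ n)⁻¹ * a γ) * chi γ x = _
      rw [haC, Finset.mul_sum, Finset.sum_mul]
      refine Finset.sum_congr rfl fun y _ => ?_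
      rw [AddChar.map_add_eq_mul]
      ring
    rw [Finset.sum_congr rfl fun γ _ => h3 γ, Finset.sum_comm]
    have h4 : ∀ y : Fin n → ZMod 2, ∑ γ : Fin n → ZMod 2,
        ((2 : ℂ) ^ n)⁻¹ * ind f y * chi γ (y + x) = if y = x then ind f y else 0 := by
      intro y
      rw [← Finset.mul_sum, sum_chi]
      have h5 : y + x = 0 ↔ y = x := by
        constructor
        · intro h
          have h6 : x + x = 0 := by
            funext i
            have : ∀ a : ZMod 2, a + a = 0 := by decide
            exact this _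
          calc y = y + (x + x) := by rw [h6, add_zero]
            _ = (y + x) + x := by rw [add_assoc]
            _ = x := by rw [h, zero_add]
        · rintro rfl
          funext i
          have : ∀ a : ZMod 2, a + a = 0 := by decide
          exact this _
      by_cases h : y = x
      · rw [if_pos (h5.2 h), if_pos h]
        field_simp
      · rw [if_neg (fun h' => h (h5.1 h')), if_neg h, mul_zero]
    rw [Finset.sum_congr rfl fun y _ => h4 y, Finset.sum_ite_eq', if_pos (Finset.mem_univ _)]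
  rw [h1]
  refine Submodule.sum_mem _ fun γ _ => ?_
  by_cases h0 : a γ = 0
  · rw [h0, Int.cast_zero, mul_zero, zero_smul]
    exact Submodule.zero_mem _
  · refine Submodule.smul_mem _ _ (Submodule.subset_span ⟨chi γ, ?_, rfl⟩)
    rw [Finset.mem_coe]
    exact Finset.mem_image_of_mem _ (Finset.mem_filter.mpr ⟨Finset.mem_univ _, h0⟩)

/-! ### Estimates -/

/-- `log₂` of a natural number, `0` for `0`. -/
noncomputable def lb (n : ℕ) : ℝ := Real.logb 2 n

theorem lb_nonneg (n : ℕ) : 0 ≤ lb n := logb_nonneg n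

theorem lb_mono {a b : ℕ} (h : a ≤ b) : lb a ≤ lb b := by
  unfold lb
  rcases Nat.eq_zero_or_pos a with h0 | h0
  · rw [h0, Nat.cast_zero, Real.logb_zero]
    exact logb_nonneg b
  · exact Real.logb_le_logb_of_le (by norm_num) (by exact_mod_cast h0) (by exact_mod_cast h)

theorem lb_mul_le (a b : ℕ) : lb (a * b) ≤ lb a + lb b := by
  rcases Nat.eq_zero_or_pos a with h0 | h0
  · subst h0
    have := lb_nonneg b
    simp only [zero_mul]
    have h1 : lb 0 = 0 := by unfold lb; simp
    linarith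
  rcases Nat.eq_zero_or_pos b with h1 | h1
  · subst h1
    have := lb_nonneg a
    simp only [mul_zero]
    have h1 : lb 0 = 0 := by unfold lb; simp
    linarith
  · unfold lb
    rw [Nat.cast_mul, Real.logb_mul (by positivity) (by positivity)]

theorem lb_pow (a k : ℕ) : lb (a ^ k) = k * lb a := by
  unfold lb
  rw [Nat.cast_pow, Real.logb_pow]

theorem lb_two : lb 2 = 1 := by
  unfold lb
  rw [Nat.cast_ofNat]
  exact Real.logb_self_eq_one (by norm_num)

theorem lb_succ_le (a : ℕ) : lb (a + 1) ≤ lb a + 1 := by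
  rcases Nat.eq_zero_or_pos a with h0 | h0
  · subst h0
    have h1 : lb 0 = 0 := by unfold lb; simp
    have h2 : lb (0 + 1) = 0 := by unfold lb; simp
    rw [h1, h2]
    norm_num
  · calc lb (a + 1) ≤ lb (a * 2) := lb_mono (by omega)
      _ ≤ lb a + lb 2 := lb_mul_le _ _
      _ = lb a + 1 := by rw [lb_two]

/-- The cost of the protocol. -/
theorem cert_cost {G Y : Type} [AddCommGroup G] [Fintype G] [Fintype Y] (F : G → Y → Bool)
    (S : Finset (AddChar G ℂ)) (hS : ∀ y, Comb S (fun x => F x y)) (N : ℕ)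
    (hC : ∀ x y, F x y = true → ∃ V : AddSubgroup G, V.index ≤ N ∧ ∀ w ∈ V, F (x + w) y = true) :
    ∃ c : ℕ, Proto F c ∧ (c : ℝ) ≤
      2 * (2 * lb N * lb (S.card + 1) + lb N + 2) * (lb (comm F).rank + 1) + 2 := by
  have hN : 1 ≤ max N 1 := le_max_right _ _
  have hlN : lb (max N 1) = lb N := by
    rcases Nat.eq_zero_or_pos N with h | h
    · subst h
      unfold lb
      simp
    · rw [max_eq_left h]
  obtain ⟨I, _, P, Q, hI, h1, h2⟩ := cover F S hS (max N 1) hN (fun x y h => by
    obtain ⟨V, hV, hF⟩ := hC x y h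
    exact ⟨V, hV.trans (le_max_left _ _), hF⟩)
  set K := ((S.card + 1) ^ 2) ^ (Nat.log 2 (max N 1)) * max N 1 with hK
  refine ⟨_, cover_proto F P Q h1 h2 (Nat.clog 2 (K + 1))
    ((Nat.add_le_add_right hI 1).trans (Nat.le_pow_clog (by norm_num) _)), ?_⟩
  have hr := lb_nonneg (comm F).rank
  have hσ := lb_nonneg (S.card + 1)
  have hn := lb_nonneg N
  have h3 : (Nat.clog 2 (K + 1) : ℝ) ≤ 2 * lb N * lb (S.card + 1) + lb N + 2 := by
    have h4 : (Nat.log 2 (max N 1) : ℝ) ≤ lb N := by
      rw [← hlN]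
      exact log_le _
    have h5 : (Nat.clog 2 (K + 1) : ℝ) ≤ lb (K + 1) + 1 := clog_le _
    have h6 := lb_succ_le K
    have h7 : lb K ≤ lb (((S.card + 1) ^ 2) ^ (Nat.log 2 (max N 1))) + lb (max N 1) :=
      lb_mul_le _ _
    rw [lb_pow, lb_pow, hlN] at h7
    push_cast at h7
    nlinarith
  have h4 : (Nat.clog 2 (comm F).rank : ℝ) ≤ lb (comm F).rank + 1 := clog_le _
  have h5 : (Nat.clog 2 (K + 1) : ℝ) * Nat.clog 2 (comm F).rank ≤
      (2 * lb N * lb (S.card + 1) + lb N + 2) * (lb (comm F).rank + 1) :=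
    mul_le_mul h3 h4 (Nat.cast_nonneg _) (by positivity)
  push_cast
  nlinarith

/-- The cost of the protocol, in terms of the sparsity of the columns. -/
theorem sparse_cost {G Y : Type} [AddCommGroup G] [Fintype G] [Fintype Y] (F : G → Y → Bool)
    (s : ℕ) (hs : ∀ y, ∃ S : Finset (AddChar G ℂ), S.card ≤ s ∧ Comb S (fun x => F x y)) (N : ℕ)
    (hC : ∀ x y, F x y = true → ∃ V : AddSubgroup G, V.index ≤ N ∧ ∀ w ∈ V, F (x + w) y = true) :
    ∃ c : ℕ, Proto F c ∧ (c : ℝ) ≤
      6 * (lb N + 1) * (lb (comm F).rank + lb s + 1) * (lb (comm F).rank + 1) := by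
  obtain ⟨S, hSc, hS⟩ := common_support F s hs
  obtain ⟨c, hc, hcc⟩ := cert_cost F S hS N hC
  refine ⟨c, hc, hcc.trans ?_⟩
  have hr := lb_nonneg (comm F).rank
  have hn := lb_nonneg N
  have hls := lb_nonneg s
  have h1 : lb (S.card + 1) ≤ lb (comm F).rank + lb s + 1 := by
    calc lb (S.card + 1) ≤ lb ((comm F).rank * s + 1) := lb_mono (by omega)
      _ ≤ lb ((comm F).rank * s) + 1 := lb_succ_le _
      _ ≤ (lb (comm F).rank + lb s) + 1 := by
          have := lb_mul_le (comm F).rank s
          linarith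
  set ρ := lb (comm F).rank
  set ν := lb N
  set τ := lb s
  have h2 : 2 * ν * lb (S.card + 1) ≤ 2 * ν * (ρ + τ + 1) :=
    mul_le_mul_of_nonneg_left h1 (by linarith)
  have h3 : 2 * (2 * ν * lb (S.card + 1) + ν + 2) * (ρ + 1) ≤
      2 * (2 * ν * (ρ + τ + 1) + ν + 2) * (ρ + 1) :=
    mul_le_mul_of_nonneg_right (by linarith) (by linarith)
  nlinarith [mul_nonneg hn hr, mul_nonneg hn hls, mul_nonneg hr hls, mul_nonneg hr hr,
    mul_nonneg (mul_nonneg hn hr) hr, mul_nonneg (mul_nonneg hn hls) hr, mul_nonneg hls hr]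

end Pool.Agent.H711.SC
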