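import Pool.Agent.H711.SC.Main

/-!
Rectangles which cover the entries with a coset of small index as a certificate, in a matrix whose
columns are combinations of few characters.
-/

set_option autoImplicit false
set_option linter.unusedSectionVars false

namespace Pool.Agent.H711.SC

open Finset Module Pool.Agent.H630R2.LR Pool.Agent.R533.VC

variable {G : Type} [AddCommGroup G] [Fintype G]

/-- Let the columns of a matrix be combinations of characters from `S`. The ones which have cosets of
index at most `N` as certificates are covered by few rectangles of ones. -/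
theorem cover_some {Y : Type} (F : G → Y → Bool) (D₀ : G → Y → Prop) (S : Finset (AddChar G ℂ))
    (hS : ∀ y, Comb S (fun x => F x y)) (N : ℕ) (hN : 1 ≤ N)
    (hC : ∀ x y, D₀ x y → ∃ V : AddSubgroup G, V.index ≤ N ∧ ∀ w ∈ V, F (x + w) y = true) :
    ∃ (I : Type) (_ : Fintype I) (P : I → Set G) (Q : I → Set Y),
      Fintype.card I ≤ ((S.card + 1) ^ 2) ^ (Nat.log 2 N) * N ∧
      (∀ i, ∀ x ∈ P i, ∀ y ∈ Q i, F x y = true) ∧
      (∀ x y, D₀ x y → ∃ i, x ∈ P i ∧ y ∈ Q i) := by
  classical
  set m := Nat.log 2 N with hm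
  set U : Finset (AddChar G ℂ) := (insert 0 S ×ˢ insert 0 S).image (fun p => p.1 - p.2) with hU
  have hU0 : (0 : AddChar G ℂ) ∈ U := by
    rw [hU, Finset.mem_image]
    exact ⟨(0, 0), Finset.mem_product.mpr ⟨Finset.mem_insert_self _ _, Finset.mem_insert_self _ _⟩,
      sub_self _⟩
  have hUc : U.card ≤ (S.card + 1) ^ 2 := by
    refine Finset.card_image_le.trans ?_
    rw [Finset.card_product, sq]
    exact Nat.mul_le_mul (Finset.card_insert_le _ _) (Finset.card_insert_le _ _)
  -- names of the cosets of the common kernel of `m` characters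
  have hcode : ∀ t : Fin m → U, ∃ e : G → Fin N,
      (ker (Set.range fun i => (t i : AddChar G ℂ))).index ≤ N →
      ∀ x x', e x = e x' → x' - x ∈ ker (Set.range fun i => (t i : AddChar G ℂ)) := by
    intro t
    set K := ker (Set.range fun i => (t i : AddChar G ℂ)) with hK
    by_cases h : K.index ≤ N
    · have hc : Fintype.card (G ⧸ K) ≤ Fintype.card (Fin N) := by
        rw [← Nat.card_eq_fintype_card, Fintype.card_fin]
        exact h
      obtain ⟨ι⟩ := Function.Embedding.nonempty_of_card_le hc
      refine ⟨fun x => ι (x : G ⧸ K), fun _ x x' hx => ?_⟩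
      have h1 : (x : G ⧸ K) = (x' : G ⧸ K) := ι.injective hx
      rw [QuotientAddGroup.eq, neg_add_eq_sub] at h1
      exact h1
    · exact ⟨fun _ => ⟨0, hN⟩, fun h' => absurd h' h⟩
  choose e he using hcode
  refine ⟨(Fin m → U) × Fin N, inferInstance, fun i => {x | e i.1 x = i.2},
    fun i => {y | ∀ x, e i.1 x = i.2 → F x y = true}, ?_, ?_, ?_⟩
  · rw [Fintype.card_prod, Fintype.card_fun, Fintype.card_fin, Fintype.card_fin, Fintype.card_coe]
    exact Nat.mul_le_mul_right _ (Nat.pow_le_pow_left hUc m)
  · intro i x hx y hy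
    exact hy x hx
  · intro x y hxy
    obtain ⟨V, hV, hVF⟩ := hC x y hxy
    set D := U.filter fun χ => ∀ w ∈ V, χ w = 1 with hD
    obtain ⟨T, hTD, hTc, hTk⟩ := small_gen V D (fun χ hχ => (Finset.mem_filter.mp hχ).2)
    have hTm : T.card ≤ m := by
      have : 2 ^ T.card < 2 ^ (m + 1) :=
        (hTc.trans hV).trans_lt (Nat.lt_pow_succ_log_self (by norm_num) N)
      exact Nat.lt_succ_iff.mp ((Nat.pow_lt_pow_iff_right (by norm_num)).mp this)
    obtain ⟨t, ht⟩ := pad U T hU0 (hTD.trans (Finset.filter_subset _ _)) m hTm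
    have hVt : V ≤ ker (Set.range fun i => (t i : AddChar G ℂ)) := by
      rw [ht, hTk]
      intro w hw χ hχ
      exact (Finset.mem_filter.mp hχ).2 w hw
    have hidx : (ker (Set.range fun i => (t i : AddChar G ℂ))).index ≤ N :=
      (Nat.le_of_dvd (Nat.pos_of_ne_zero AddSubgroup.index_ne_zero_of_finite)
        (AddSubgroup.index_dvd_of_le hVt)).trans hV
    refine ⟨(t, e t x), rfl, fun x' hx' => ?_⟩
    have h1 : x' - x ∈ ker (Set.range fun i => (t i : AddChar G ℂ)) := he t hidx x x' hx'.symm
    have h2 := const_ext S (fun x => F x y) (hS y) V x true hVF (x' - x) (by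
      intro χ hχ ψ hψ h
      have h3 : χ - ψ ∈ D := by
        rw [hD, Finset.mem_filter]
        refine ⟨Finset.mem_image.mpr ⟨(χ, ψ), Finset.mem_product.mpr ⟨hχ, hψ⟩, rfl⟩, ?_⟩
        intro w hw
        rw [AddChar.sub_apply, AddChar.map_neg_eq_inv, h w hw]
        exact mul_inv_cancel₀ (char_ne_zero ψ w)
      rw [ht, hTk] at h1
      have h4 := h1 (χ - ψ) h3
      rw [AddChar.sub_apply, AddChar.map_neg_eq_inv] at h4
      have h0 := char_ne_zero ψ (x' - x)
      field_simp at h4
      exact h4)
    have h5 : x + (x' - x) = x' := by abel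
    rw [h5] at h2
    exact h2

end Pool.Agent.H711.SC
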