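import Pool.Agent.H711.SC.Tree
import Pool.Agent.H711.SC.Cover

/-!
Matrices whose columns are combinations of few characters and have cosets of small index as
certificates for their ones: a cover of the ones by few rectangles.
-/

set_option autoImplicit false
set_option linter.unusedSectionVars false

namespace Pool.Agent.H711.SC

open Finset Module Pool.Agent.H630R2.LR Pool.Agent.R533.VC

variable {G : Type} [AddCommGroup G] [Fintype G]

/-- All columns are combinations of `rank · s` characters, if each of them is one of `s`. -/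
theorem common_support {Y : Type} [Fintype Y] (F : G → Y → Bool) (s : ℕ)
    (hs : ∀ y, ∃ S : Finset (AddChar G ℂ), S.card ≤ s ∧ Comb S (fun x => F x y)) :
    ∃ S : Finset (AddChar G ℂ), S.card ≤ (comm F).rank * s ∧ ∀ y, Comb S (fun x => F x y) := by
  classical
  choose S hS hC using hs
  set col : Y → G → ℝ := fun y x => if F x y then (1 : ℝ) else 0 with hcol
  obtain ⟨b, hb, hspan, -⟩ := Submodule.exists_fun_fin_finrank_span_eq ℝ (Set.range col)
  choose z hz using hb
  have hrank : (comm F).rank = finrank ℝ (Submodule.span ℝ (Set.range col)) :=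
    Matrix.rank_eq_finrank_span_cols _
  refine ⟨univ.biUnion fun i => S (z i), ?_, fun y => ?_⟩
  · calc (univ.biUnion fun i => S (z i)).card ≤ ∑ i, (S (z i)).card := Finset.card_biUnion_le
      _ ≤ ∑ _i : Fin (finrank ℝ (Submodule.span ℝ (Set.range col))), s :=
          Finset.sum_le_sum fun i _ => hS _
      _ = (comm F).rank * s := by
          rw [Finset.sum_const, Finset.card_univ, Fintype.card_fin, smul_eq_mul, hrank]
  · have h1 : col y ∈ Submodule.span ℝ (Set.range b) := by
      rw [hspan]
      exact Submodule.subset_span ⟨y, rfl⟩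
    rw [Submodule.mem_span_range_iff_exists_fun] at h1
    obtain ⟨c, hc⟩ := h1
    rw [comb_iff]
    have h2 : ind (fun x => F x y) = ∑ i, (c i : ℂ) • ind (fun x => F x (z i)) := by
      funext x
      rw [Finset.sum_apply]
      have h3 := congrFun hc x
      rw [Finset.sum_apply] at h3
      have h4 : ∀ y' : Y, ind (fun x => F x y') x = ((col y' x : ℝ) : ℂ) := by
        intro y'
        simp only [ind, hcol]
        split_ifs <;> simp
      rw [h4 y, ← h3, Complex.ofReal_sum]
      refine Finset.sum_congr rfl fun i _ => ?_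
      show ((c i * b i x : ℝ) : ℂ) = (c i : ℂ) * ind (fun x => F x (z i)) x
      rw [h4 (z i), hz i, Complex.ofReal_mul]
    rw [h2]
    refine Submodule.sum_mem _ fun i _ => Submodule.smul_mem _ _ ?_
    refine sp_mono ?_ ((comb_iff _ _).1 (hC (z i)))
    intro χ hχ
    rw [Finset.mem_coe, Finset.mem_biUnion]
    exact ⟨i, Finset.mem_univ _, hχ⟩

/-- Padding of a small set of characters. -/
theorem pad (U T : Finset (AddChar G ℂ)) (h0 : 0 ∈ U) (hT : T ⊆ U) (m : ℕ) (hm : T.card ≤ m) :
    ∃ t : Fin m → U, ker (Set.range fun i => (t i : AddChar G ℂ)) = ker (T : Set (AddChar G ℂ)) := by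
  classical
  obtain ⟨e⟩ : Nonempty (T ↪ Fin m) := by
    refine Function.Embedding.nonempty_of_card_le ?_
    rw [Fintype.card_coe, Fintype.card_fin]
    exact hm
  refine ⟨fun i => if h : ∃ χ : T, e χ = i then ⟨h.choose.1, hT h.choose.2⟩ else ⟨0, h0⟩, ?_⟩
  ext x
  rw [mem_ker, mem_ker]
  constructor
  · intro h χ hχ
    refine h χ ⟨e ⟨χ, hχ⟩, ?_⟩
    have hex : ∃ ψ : T, e ψ = e ⟨χ, hχ⟩ := ⟨_, rfl⟩
    simp only [dif_pos hex]
    have := e.injective hex.choose_spec
    rw [this]
  · rintro h _ ⟨i, rfl⟩
    by_cases hex : ∃ ψ : T, e ψ = i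
    · simp only [dif_pos hex]
      exact h _ hex.choose.2
    · simp only [dif_neg hex]
      exact AddChar.zero_apply x

/-- The ones of a matrix whose columns are combinations of characters from `S` and have cosets of
index at most `N` as certificates for their ones are covered by few rectangles. -/
theorem cover {Y : Type} (F : G → Y → Bool) (S : Finset (AddChar G ℂ))
    (hS : ∀ y, Comb S (fun x => F x y)) (N : ℕ) (hN : 1 ≤ N)
    (hC : ∀ x y, F x y = true → ∃ V : AddSubgroup G, V.index ≤ N ∧ ∀ w ∈ V, F (x + w) y = true) :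
    ∃ (I : Type) (_ : Fintype I) (P : I → Set G) (Q : I → Set Y),
      Fintype.card I ≤ ((S.card + 1) ^ 2) ^ (Nat.log 2 N) * N ∧
      (∀ i, ∀ x ∈ P i, ∀ y ∈ Q i, F x y = true) ∧
      (∀ x y, F x y = true → ∃ i, x ∈ P i ∧ y ∈ Q i) := by
  classical
  set m := Nat.log 2 N with hm
  set U : Finset (AddChar G ℂ) := (insert 0 S ×ˢ insert 0 S).image (fun p => p.1 - p.2) with hU
  have hU0 : (0 : AddChar G ℂ) ∈ U := by
    rw [hU, Finset.mem_image]
    exact ⟨(0, 0), Finset.mem_product.mpr ⟨Finset.mem_insert_self _ _, Finset.mem_insert_self _ _⟩,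
      sub_self _⟩
  have hUc : U.card ≤ (S.card + 1) ^ 2 := by
    refine Finset.card_image_le.trans ?_
    rw [Finset.card_product, sq]
    exact Nat.mul_le_mul (Finset.card_insert_le _ _) (Finset.card_insert_le _ _)
  -- names of the cosets of the common kernel of `m` characters
  have hcode : ∀ t : Fin m → U, ∃ e : G → Fin N,
      (ker (Set.range fun i => (t i : AddChar G ℂ))).index ≤ N →
      ∀ x x', e x = e x' → x' - x ∈ ker (Set.range fun i => (t i : AddChar G ℂ)) := by
    intro t
    set K := ker (Set.range fun i => (t i : AddChar G ℂ)) with hK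
    by_cases h : K.index ≤ N
    · have hc : Fintype.card (G ⧸ K) ≤ Fintype.card (Fin N) := by
        rw [← Nat.card_eq_fintype_card, Fintype.card_fin]
        exact h
      obtain ⟨ι⟩ := Function.Embedding.nonempty_of_card_le hc
      refine ⟨fun x => ι (x : G ⧸ K), fun _ x x' hx => ?_⟩
      have h1 : (x : G ⧸ K) = (x' : G ⧸ K) := ι.injective hx
      rw [QuotientAddGroup.eq, neg_add_eq_sub] at h1
      exact h1
    · exact ⟨fun _ => ⟨0, hN⟩, fun h' => absurd h' h⟩
  choose e he using hcode
  refine ⟨(Fin m → U) × Fin N, inferInstance, fun i => {x | e i.1 x = i.2},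
    fun i => {y | ∀ x, e i.1 x = i.2 → F x y = true}, ?_, ?_, ?_⟩
  · rw [Fintype.card_prod, Fintype.card_fun, Fintype.card_fin, Fintype.card_fin, Fintype.card_coe]
    exact Nat.mul_le_mul_right _ (Nat.pow_le_pow_left hUc m)
  · intro i x hx y hy
    exact hy x hx
  · intro x y hxy
    obtain ⟨V, hV, hVF⟩ := hC x y hxy
    set D := U.filter fun χ => ∀ w ∈ V, χ w = 1 with hD
    obtain ⟨T, hTD, hTc, hTk⟩ := small_gen V D (fun χ hχ => (Finset.mem_filter.mp hχ).2)
    have hTm : T.card ≤ m := by
      have : 2 ^ T.card < 2 ^ (m + 1) :=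
        (hTc.trans hV).trans_lt (Nat.lt_pow_succ_log_self (by norm_num) N)
      exact Nat.lt_succ_iff.mp ((Nat.pow_lt_pow_iff_right (by norm_num)).mp this)
    obtain ⟨t, ht⟩ := pad U T hU0 (hTD.trans (Finset.filter_subset _ _)) m hTm
    have hVt : V ≤ ker (Set.range fun i => (t i : AddChar G ℂ)) := by
      rw [ht, hTk]
      intro w hw χ hχ
      exact (Finset.mem_filter.mp hχ).2 w hw
    have hidx : (ker (Set.range fun i => (t i : AddChar G ℂ))).index ≤ N :=
      (Nat.le_of_dvd (Nat.pos_of_ne_zero AddSubgroup.index_ne_zero_of_finite)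
        (AddSubgroup.index_dvd_of_le hVt)).trans hV
    refine ⟨(t, e t x), rfl, fun x' hx' => ?_⟩
    have h1 : x' - x ∈ ker (Set.range fun i => (t i : AddChar G ℂ)) := he t hidx x x' hx'.symm
    have h2 := const_ext S (fun x => F x y) (hS y) V x true hVF (x' - x) (by
      intro χ hχ ψ hψ h
      have h3 : χ - ψ ∈ D := by
        rw [hD, Finset.mem_filter]
        refine ⟨Finset.mem_image.mpr ⟨(χ, ψ), Finset.mem_product.mpr ⟨hχ, hψ⟩, rfl⟩, ?_⟩
        intro w hw
        rw [AddChar.sub_apply, AddChar.map_neg_eq_inv, h w hw]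
        exact mul_inv_cancel₀ (char_ne_zero ψ w)
      rw [ht, hTk] at h1
      have h4 := h1 (χ - ψ) h3
      rw [AddChar.sub_apply, AddChar.map_neg_eq_inv] at h4
      have h0 := char_ne_zero ψ (x' - x)
      field_simp at h4
      exact h4)
    have h5 : x + (x' - x) = x' := by abel
    rw [h5] at h2
    exact h2

end Pool.Agent.H711.SC
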