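import Pool.Agent.H711.SC.Chars

/-!
Decision trees whose queries ask for the coset of a subgroup of small index, and their relation to
certificates.
-/

set_option autoImplicit false
set_option linter.unusedSectionVars false

namespace Pool.Agent.H711.SC

open Finset

variable {G : Type} [AddCommGroup G] [Fintype G]

/-- `CT q f d`: the function `f` on the finite abelian group `G` is computed by a decision tree of
depth at most `d`; a query asks for the coset `x + K` of some subgroup `K` of index at most `q`. -/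
inductive CT (q : ℕ) : (G → Bool) → ℕ → Prop
  | const (v : Bool) (d : ℕ) : CT q (fun _ => v) d
  | query (f : G → Bool) (d : ℕ) (K : AddSubgroup G) (hK : K.index ≤ q) (g : G ⧸ K → G → Bool)
      (hg : ∀ z, CT q (g z) d) (h : ∀ x : G, f x = g (x : G ⧸ K) x) : CT q f (d + 1)

/-- The span of a set of characters. -/
def sp (S : Set (AddChar G ℂ)) : Submodule ℂ (G → ℂ) :=
  Submodule.span ℂ ((fun χ : AddChar G ℂ => (fun x => χ x)) '' S)

/-- The complex indicator function. -/
def ind (f : G → Bool) : G → ℂ := fun x => if f x then 1 else 0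

theorem sp_mono {S T : Set (AddChar G ℂ)} (h : S ⊆ T) : sp S ≤ sp T :=
  Submodule.span_mono (Set.image_mono h)

theorem comb_iff (S : Finset (AddChar G ℂ)) (f : G → Bool) :
    Comb S f ↔ ind f ∈ sp (S : Set (AddChar G ℂ)) := by
  classical
  unfold sp
  rw [Submodule.mem_span_image_finset_iff_exists_fun]
  constructor
  · rintro ⟨c, hc⟩
    refine ⟨fun χ => c χ, ?_⟩
    funext x
    rw [Finset.sum_apply]
    have h1 : ∑ i : S, ((c i : ℂ) • fun x => (i : AddChar G ℂ) x) x = ∑ χ ∈ S, c χ * χ x :=
      Finset.sum_coe_sort S (fun χ => c χ * χ x)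
    rw [h1]
    exact (hc x).symm
  · rintro ⟨c, hc⟩
    refine ⟨fun χ => if h : χ ∈ S then c ⟨χ, h⟩ else 0, fun x => ?_⟩
    have := congrFun hc x
    rw [Finset.sum_apply] at this
    have h1 : ∑ χ ∈ S, (if h : χ ∈ S then c ⟨χ, h⟩ else 0) * χ x =
        ∑ i : S, (c i • fun x => (i : AddChar G ℂ) x) x := by
      rw [← Finset.sum_coe_sort S (fun χ => (if h : χ ∈ S then c ⟨χ, h⟩ else 0) * χ x)]
      refine Finset.sum_congr rfl fun i _ => ?_
      rw [dif_pos i.2]
      rfl
    rw [h1]
    exact this.symm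

theorem mul_mem_sp {S : Set (AddChar G ℂ)} {h : G → ℂ} (hh : h ∈ sp S) (χ : AddChar G ℂ) :
    (fun x => χ x * h x) ∈ sp ((fun ψ => χ * ψ) '' S) := by
  unfold sp at *
  induction hh using Submodule.span_induction with
  | mem h hh =>
    obtain ⟨ψ, hψ, rfl⟩ := hh
    exact Submodule.subset_span ⟨χ * ψ, ⟨ψ, hψ, rfl⟩, rfl⟩
  | zero =>
    have : (fun x : G => χ x * (0 : G → ℂ) x) = 0 := by
      funext x
      simp
    rw [this]
    exact Submodule.zero_mem _
  | add h h' _ _ h1 h2 =>
    have : (fun x : G => χ x * (h + h') x) = (fun x => χ x * h x) + fun x => χ x * h' x := by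
      funext x
      simp [mul_add]
    rw [this]
    exact Submodule.add_mem _ h1 h2
  | smul a h _ h1 =>
    have : (fun x : G => χ x * (a • h) x) = a • (fun x => χ x * h x) := by
      funext x
      simp
      ring
    rw [this]
    exact Submodule.smul_mem _ _ h1

/-- A tree of depth `d` gives a combination of at most `q ^ (2 d)` characters. -/
theorem CT.comb {q : ℕ} (hq : 1 ≤ q) {f : G → Bool} {d : ℕ} (h : CT q f d) :
    ∃ S : Finset (AddChar G ℂ), S.card ≤ (q ^ 2) ^ d ∧ Comb S f := by
  classical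
  induction h with
  | const v d =>
    refine ⟨{0}, ?_, ?_⟩
    · rw [card_singleton]
      exact Nat.one_le_pow _ _ (Nat.pow_pos hq)
    · refine ⟨fun _ => if v then 1 else 0, fun x => ?_⟩
      rw [Finset.sum_singleton, AddChar.zero_apply, mul_one]
  | query f d K hK g hg h ih =>
    choose S hS hC using ih
    have hcardQ : Fintype.card (G ⧸ K) ≤ q := by
      rw [← Nat.card_eq_fintype_card]
      exact hK
    set lift : AddChar (G ⧸ K) ℂ → AddChar G ℂ := fun χ =>
      χ.compAddMonoidHom (QuotientAddGroup.mk' K) with hlift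
    set T : Finset (AddChar G ℂ) := ((univ : Finset (G ⧸ K)) ×ˢ
      (univ : Finset (AddChar (G ⧸ K) ℂ))).biUnion
      (fun p => (S p.1).image (fun ψ => lift p.2 * ψ)) with hT
    refine ⟨T, ?_, ?_⟩
    · calc T.card ≤ ∑ p ∈ (univ : Finset (G ⧸ K)) ×ˢ (univ : Finset (AddChar (G ⧸ K) ℂ)),
            ((S p.1).image (fun ψ => lift p.2 * ψ)).card := Finset.card_biUnion_le
        _ ≤ ∑ p ∈ (univ : Finset (G ⧸ K)) ×ˢ (univ : Finset (AddChar (G ⧸ K) ℂ)), (q ^ 2) ^ d :=
            Finset.sum_le_sum fun p _ => Finset.card_image_le.trans (hS p.1)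
        _ = Fintype.card (G ⧸ K) * Fintype.card (G ⧸ K) * (q ^ 2) ^ d := by
            rw [Finset.sum_const, Finset.card_product, Finset.card_univ, Finset.card_univ,
              smul_eq_mul, AddChar.card_eq]
        _ ≤ q * q * (q ^ 2) ^ d :=
            Nat.mul_le_mul_right _ (Nat.mul_le_mul hcardQ hcardQ)
        _ = (q ^ 2) ^ (d + 1) := by ring
    · rw [comb_iff]
      have hk0 : (Fintype.card (G ⧸ K) : ℂ) ≠ 0 := by
        have : 0 < Fintype.card (G ⧸ K) := Fintype.card_pos
        exact_mod_cast this.ne'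
      have h1 : ind f = ∑ z : G ⧸ K, ∑ χ : AddChar (G ⧸ K) ℂ,
          (((Fintype.card (G ⧸ K) : ℂ))⁻¹ * χ (-z)) • fun x => lift χ x * ind (g z) x := by
        funext x
        rw [Finset.sum_apply]
        have h2 : ∀ z : G ⧸ K, (∑ χ : AddChar (G ⧸ K) ℂ,
            (((Fintype.card (G ⧸ K) : ℂ))⁻¹ * χ (-z)) • fun x => lift χ x * ind (g z) x) x =
            if (x : G ⧸ K) = z then ind (g z) x else 0 := by
          intro z
          rw [Finset.sum_apply]
          have h3 : ∀ χ : AddChar (G ⧸ K) ℂ,
              ((((Fintype.card (G ⧸ K) : ℂ))⁻¹ * χ (-z)) • fun x => lift χ x * ind (g z) x) x =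
              (Fintype.card (G ⧸ K) : ℂ)⁻¹ * ind (g z) x * χ ((x : G ⧸ K) - z) := by
            intro χ
            show (((Fintype.card (G ⧸ K) : ℂ))⁻¹ * χ (-z)) * (χ (x : G ⧸ K) * ind (g z) x) = _
            rw [sub_eq_add_neg, AddChar.map_add_eq_mul]
            ring
          rw [Finset.sum_congr rfl fun χ _ => h3 χ, ← Finset.mul_sum, AddChar.sum_apply_eq_ite]
          simp only [sub_eq_zero]
          split_ifs with h4
          · rw [mul_right_comm, inv_mul_cancel₀ hk0, one_mul]
          · rw [mul_zero]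
        rw [Finset.sum_congr rfl fun z _ => h2 z, Finset.sum_ite_eq, if_pos (Finset.mem_univ _)]
        unfold ind
        rw [h x]
      rw [h1]
      refine Submodule.sum_mem _ fun z _ => Submodule.sum_mem _ fun χ _ => ?_
      refine Submodule.smul_mem _ _ ?_
      have h5 := mul_mem_sp ((comb_iff _ _).1 (hC z)) (lift χ)
      refine sp_mono ?_ h5
      rintro _ ⟨ψ, hψ, rfl⟩
      rw [Finset.mem_coe, hT, Finset.mem_biUnion]
      exact ⟨(z, χ), Finset.mem_product.mpr ⟨Finset.mem_univ _, Finset.mem_univ _⟩,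
        Finset.mem_image_of_mem _ hψ⟩

/-- A subset of the group is met by a leaf of the tree in a large part. -/
theorem CT.leaf {q : ℕ} (hq : 1 ≤ q) {f : G → Bool} {d : ℕ} (h : CT q f d) (A : Finset G)
    (hA : A.Nonempty) : ∃ (V : AddSubgroup G) (x : G) (b : Bool), V.index ≤ q ^ d ∧
      (∀ w ∈ V, f (x + w) = b) ∧
      ∀ [DecidablePred fun a => a - x ∈ V], A.card ≤ q ^ d * (A.filter fun a => a - x ∈ V).card := by
  classical
  induction h generalizing A with
  | const v d =>
    refine ⟨⊤, 0, v, ?_, fun _ _ => rfl, ?_⟩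
    · rw [AddSubgroup.index_top]
      exact Nat.one_le_pow _ _ hq
    · intro _
      rw [Finset.filter_true_of_mem (fun a _ => AddSubgroup.mem_top _)]
      exact Nat.le_mul_of_pos_left _ (Nat.pow_pos hq)
  | query f d K hK g hg h ih =>
    have hcardQ : Fintype.card (G ⧸ K) ≤ q := by
      rw [← Nat.card_eq_fintype_card]
      exact hK
    -- a popular coset
    have hpop : ∃ z : G ⧸ K, A.card ≤ q * (A.filter fun a : G => ((a : G) : G ⧸ K) = z).card := by
      by_contra hcon
      push Not at hcon
      have h1 : A.card = ∑ z : G ⧸ K, (A.filter fun a : G => ((a : G) : G ⧸ K) = z).card :=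
        Finset.card_eq_sum_card_fiberwise fun a _ => Finset.mem_univ _
      have h2 : ∑ z : G ⧸ K, q * (A.filter fun a : G => ((a : G) : G ⧸ K) = z).card <
          ∑ z : G ⧸ K, A.card :=
        Finset.sum_lt_sum_of_nonempty Finset.univ_nonempty fun z _ => hcon z
      rw [← Finset.mul_sum, ← h1, Finset.sum_const, Finset.card_univ, smul_eq_mul] at h2
      exact absurd (Nat.mul_le_mul_right A.card hcardQ) (not_le_of_gt h2)
    obtain ⟨z, hz⟩ := hpop
    set Az := A.filter fun a : G => ((a : G) : G ⧸ K) = z with hAz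
    have hAz0 : Az.Nonempty := by
      rw [← Finset.card_pos]
      rcases Nat.eq_zero_or_pos Az.card with h0 | h0
      · rw [h0, mul_zero] at hz
        exact absurd hA.card_pos (by omega)
      · exact h0
    obtain ⟨V, x, b, hV, hb, hc⟩ := ih z Az hAz0
    have hc' := hc
    obtain ⟨x₁, hx₁⟩ : (Az.filter fun a => a - x ∈ V).Nonempty := by
      rw [← Finset.card_pos]
      rcases Nat.eq_zero_or_pos (Az.filter fun a => a - x ∈ V).card with h0 | h0
      · rw [h0, mul_zero] at hc'
        exact absurd hAz0.card_pos (by omega)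
      · exact h0
    rw [Finset.mem_filter, hAz, Finset.mem_filter] at hx₁
    obtain ⟨⟨_, hKx⟩, hxV⟩ := hx₁
    refine ⟨V ⊓ K, x₁, b, ?_, ?_, ?_⟩
    · calc (V ⊓ K).index ≤ V.index * K.index := AddSubgroup.index_inf_le
        _ ≤ q ^ d * q := Nat.mul_le_mul hV hK
        _ = q ^ (d + 1) := (pow_succ q d).symm
    · rintro w ⟨hwV, hwK⟩
      have hw1 : ((x₁ + w : G) : G ⧸ K) = z := by
        rw [← hKx, eq_comm, QuotientAddGroup.eq, neg_add_cancel_left]
        exact hwK
      rw [h, hw1]
      have h1 := hb ((x₁ - x) + w) (V.add_mem hxV hwV)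
      have h2 : x + (x₁ - x + w) = x₁ + w := by abel
      rw [h2] at h1
      exact h1
    · intro hdec
      have h1 : (Az.filter fun a => a - x ∈ V) ⊆ A.filter fun a => a - x₁ ∈ V ⊓ K := by
        intro a ha
        rw [Finset.mem_filter, hAz, Finset.mem_filter] at ha
        obtain ⟨⟨haA, haK⟩, haV⟩ := ha
        rw [Finset.mem_filter]
        refine ⟨haA, ?_, ?_⟩
        · have h2 : a - x₁ = (a - x) - (x₁ - x) := by abel
          rw [h2]
          exact V.sub_mem haV hxV
        · have h3 : ((x₁ : G) : G ⧸ K) = (a : G ⧸ K) := by rw [hKx, haK]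
          rw [QuotientAddGroup.eq, neg_add_eq_sub] at h3
          exact h3
      calc A.card ≤ q * Az.card := hz
        _ ≤ q * (q ^ d * (Az.filter fun a => a - x ∈ V).card) := Nat.mul_le_mul_left _ hc
        _ ≤ q * (q ^ d * (A.filter fun a => a - x₁ ∈ V ⊓ K).card) :=
            Nat.mul_le_mul_left _ (Nat.mul_le_mul_left _ (Finset.card_le_card h1))
        _ = _ := by ring

theorem CT.mono {q : ℕ} {f : G → Bool} {d d' : ℕ} (h : CT q f d) (hd : d ≤ d') : CT q f d' := by
  induction h generalizing d' with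
  | const v d => exact CT.const v d'
  | query f d K hK g hg h ih =>
    obtain ⟨e, rfl⟩ : ∃ e, d' = e + 1 := ⟨d' - 1, by omega⟩
    exact CT.query f e K hK g (fun z => ih z (by omega)) h

/-- Every point lies in a coset of a subgroup of index at most `N` on which `f` is constant. -/
def Cert (N : ℕ) (f : G → Bool) : Prop :=
  ∀ x, ∃ V : AddSubgroup G, V.index ≤ N ∧ ∀ w ∈ V, f (x + w) = f x

theorem relIndex_half (W V Z : AddSubgroup G) (x : G) (hx : x ∈ W) (hn : x ∉ Z ⊔ V) :
    2 * V.relIndex (W ⊓ Z) ≤ V.relIndex W := by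
  set P : AddSubgroup G := (W ⊓ Z) ⊔ (W ⊓ V) with hP
  have hPW : P ≤ W := sup_le inf_le_left inf_le_left
  have hPn : ¬ W ≤ P := fun h => hn ((sup_le_sup inf_le_right inf_le_right : P ≤ Z ⊔ V) (h hx))
  have h1 : (W ⊓ V).relIndex P * P.relIndex W = (W ⊓ V).relIndex W :=
    AddSubgroup.relIndex_mul_relIndex _ _ _ le_sup_right hPW
  have h2 : (W ⊓ V).relIndex P = (W ⊓ V).relIndex (W ⊓ Z) := AddSubgroup.relIndex_sup_right _ _
  have h3 : (W ⊓ V).relIndex (W ⊓ Z) = V.relIndex (W ⊓ Z) := by
    rw [← AddSubgroup.inf_relIndex_right, ← AddSubgroup.inf_relIndex_right V (W ⊓ Z)]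
    congr 1
    ext a
    simp only [AddSubgroup.mem_inf]
    tauto
  have h4 : (W ⊓ V).relIndex W = V.relIndex W := AddSubgroup.inf_relIndex_left _ _
  have h5 : 2 ≤ P.relIndex W := by
    have h6 : P.relIndex W ≠ 1 := fun h => hPn (AddSubgroup.relIndex_eq_one.mp h)
    have h7 : P.relIndex W ≠ 0 := by
      have : P.relIndex W * W.index = P.index := AddSubgroup.relIndex_mul_index hPW
      intro h
      rw [h, zero_mul] at this
      exact AddSubgroup.index_ne_zero_of_finite this.symm
    omega
  rw [← h4, ← h1, h2, h3, mul_comm]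
  exact Nat.mul_le_mul_left _ h5

/-- Certificates give trees. -/
theorem cert_tree (N : ℕ) (f : G → Bool) (hf : Cert N f) : ∀ (j : ℕ) (W : AddSubgroup G) (x₀ : G),
    (∀ u, u - x₀ ∈ W → f u = false → ∃ V : AddSubgroup G, V.relIndex W < 2 ^ (j + 1) ∧
      ∀ w ∈ V, f (u + w) = false) → ∃ g : G → Bool, CT N g j ∧ ∀ x, x - x₀ ∈ W → f x = g x := by
  classical
  intro j
  induction j with
  | zero =>
    intro W x₀ h
    by_cases hz : ∃ u, u - x₀ ∈ W ∧ f u = false
    · obtain ⟨u, hu, hfu⟩ := hz
      obtain ⟨V, hV, hVf⟩ := h u hu hfu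
      refine ⟨fun _ => false, CT.const _ _, fun x hx => ?_⟩
      have h1 : V.relIndex W ≠ 0 := by
        rw [← AddSubgroup.inf_relIndex_right]
        have h2 : (V ⊓ W).relIndex W * W.index = (V ⊓ W).index :=
          AddSubgroup.relIndex_mul_index inf_le_right
        intro h3
        rw [h3, zero_mul] at h2
        exact AddSubgroup.index_ne_zero_of_finite h2.symm
      have h2 : V.relIndex W = 1 := by
        have : V.relIndex W < 2 := by simpa using hV
        omega
      have h3 : W ≤ V := AddSubgroup.relIndex_eq_one.mp h2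
      have h4 := hVf (x - u) (h3 (by
        have : x - u = (x - x₀) - (u - x₀) := by abel
        rw [this]
        exact W.sub_mem hx hu))
      rwa [add_sub_cancel] at h4
    · push Not at hz
      refine ⟨fun _ => true, CT.const _ _, fun x hx => ?_⟩
      have := hz x hx
      cases hfx : f x
      · exact absurd hfx this
      · rfl
  | succ j ih =>
    intro W x₀ h
    by_cases hz : ∃ z, z - x₀ ∈ W ∧ f z = true
    · obtain ⟨z, hzW, hfz⟩ := hz
      obtain ⟨Z, hZ, hZf⟩ := hf z
      have hstep : ∀ c : G ⧸ Z, ∃ g : G → Bool, CT N g j ∧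
          ∀ x : G, x - x₀ ∈ W → (x : G ⧸ Z) = c → f x = g x := by
        intro c
        by_cases hc : ∃ x₁ : G, x₁ - x₀ ∈ W ∧ (x₁ : G ⧸ Z) = c
        · obtain ⟨x₁, hx₁, hx₁c⟩ := hc
          obtain ⟨g, hg, hgf⟩ := ih (W ⊓ Z) x₁ (by
            intro u hu hfu
            have huW : u - x₀ ∈ W := by
              have : u - x₀ = (u - x₁) + (x₁ - x₀) := by abel
              rw [this]
              exact W.add_mem hu.1 hx₁
            obtain ⟨V, hV, hVf⟩ := h u huW hfu
            refine ⟨V, ?_, hVf⟩
            have h1 := relIndex_half W V Z (z - u) (by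
              have : z - u = (z - x₀) - (u - x₀) := by abel
              rw [this]
              exact W.sub_mem hzW huW) (by
              intro hmem
              obtain ⟨a, ha, b, hb, hab⟩ := AddSubgroup.mem_sup.mp hmem
              have h2 := hVf b hb
              have h3 := hZf (-a) (Z.neg_mem ha)
              have h4 : u + b = z + -a := by
                have : z = u + (a + b) := by rw [hab]; abel
                rw [this]
                abel
              rw [h4, h3, hfz] at h2
              exact Bool.noConfusion h2)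
            have h2 : 2 ^ (j + 1 + 1) = 2 * 2 ^ (j + 1) := pow_succ' 2 (j + 1)
            omega)
          refine ⟨g, hg, fun x hx hxc => hgf x ⟨?_, ?_⟩⟩
          · have : x - x₁ = (x - x₀) - (x₁ - x₀) := by abel
            rw [this]
            exact W.sub_mem hx hx₁
          · have h3 : ((x₁ : G) : G ⧸ Z) = (x : G ⧸ Z) := by rw [hx₁c, hxc]
            rw [QuotientAddGroup.eq, neg_add_eq_sub] at h3
            exact h3
        · refine ⟨fun _ => false, CT.const _ _, fun x hx hxc => absurd ⟨x, hx, hxc⟩ hc⟩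
      choose g hg hgf using hstep
      refine ⟨fun x => g (x : G ⧸ Z) x, CT.query _ j Z hZ g hg (fun _ => rfl), fun x hx => ?_⟩
      exact hgf _ x hx rfl
    · push Not at hz
      refine ⟨fun _ => false, CT.const _ _, fun x hx => ?_⟩
      have := hz x hx
      cases hfx : f x
      · rfl
      · exact absurd hfx this

theorem Cert.tree {N : ℕ} {f : G → Bool} (hf : Cert N f) : CT N f (Nat.log 2 N) := by
  obtain ⟨g, hg, hgf⟩ := cert_tree N f hf (Nat.log 2 N) ⊤ 0 (by
    intro u _ hfu
    obtain ⟨V, hV, hVf⟩ := hf u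
    refine ⟨V, ?_, fun w hw => by rw [hVf w hw, hfu]⟩
    rw [AddSubgroup.relIndex_top_right]
    exact hV.trans_lt (Nat.lt_pow_succ_log_self (by norm_num) N))
  have : f = g := funext fun x => hgf x (AddSubgroup.mem_top _)
  rw [this]
  exact hg

end Pool.Agent.H711.SC
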